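import Pool.Agent.H499.CD.Adm

/-!
# The depth of Eisenstein congruences and the lengths of Selmer groups: a min-cut theorem

The known evidence for Q1: if a form on `SO(4, 3)` is congruent modulo `𝔮` to the form induced from `F`, that is, if its
Galois representation has the trace `p^a + p^b + λ_F(p)` modulo `𝔮`, `a, b = (j + 2k - 3)/2 ± s`, then Ribet's lattice
argument gives a nonzero element of `H¹_f(ℚ, T*(1 - t) ⊗ A)`. The conjecture asks for the exact length of this group.
We prove a lower bound for the length by the length of the congruence module, for congruences with any number of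
forms, for any number of pieces, over any number field.

Let `O` be a complete discrete valuation ring with maximal ideal `𝔪`, `F` a number field, `S` a set of places of
density zero, `r_κ : G_F → GL_N(O)` (`κ` in a finite set `K`) the continuous representations of the eigenforms of a space of
automorphic forms, and `T`, the Hecke algebra, the `O`-subalgebra of `O^K` generated by the traces of the (geometric)
Frobenius elements outside `S`. Let `ρ_1, …, ρ_s` be continuous representations over `O` of dimensions `d_i`,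
`N = ∑ d_i`, residually absolutely irreducible and pairwise non-isomorphic, `I ⊂ T` the Eisenstein ideal, which is
generated by the `tr r(Frob_v) - ∑ tr ρ_i(Frob_v)`, and `T/I` the congruence module; `T/I` is `O/𝔪^n` if it has length `n`. The
`r_κ` with trace congruent to `∑ tr ρ_i` modulo `𝔪` are assumed to be irreducible. Let `P` be a class of representations of
`G_F` on `O`-modules, closed under subquotients and finite direct sums, which contains the reductions of these `r_κ` modulo
all powers of `𝔪` (for example: finite, unramified outside `S₀`, and Fontaine-Laffaille with weights in a given interval, at the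
places over `p`), and `H¹_P(F, Hom(ρ_j, ρ_i) ⊗ O/𝔪^n)` the group of the classes of the extensions of `ρ_j` by `ρ_i` over
`O/𝔪^n` which are in `P`.

THEOREM. If `T/I` has length at least `n` then for EVERY decomposition `A ∪ A'` of the set of the pieces in two nonempty
subsets the sum of the lengths of the groups `H¹_P(F, Hom(ρ_j, ρ_i) ⊗ O/𝔪^n)`, `i ∈ A`, `j ∈ A'`, is at least `n`.

So in the network on the pieces with the lengths of the Selmer groups as capacities every cut has at least the capacity
`n` (for `n = 1` this says that the graph of the extensions is strongly connected, Ribet's and Bellaïche's theorem).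

For Q1: `O = O_𝔮`, `F = ℚ`, `N = 6`, the pieces `O(-a)`, `O(-b)`, `T_𝔮` (4-dimensional) and `t = 1 + a`. The cut
`{O(-a)}`, `{O(-b), T_𝔮}` gives: the length of `H¹_f(ℚ, T_𝔮*(1 - t) ⊗ O/𝔮^n)` plus the length of `H¹_f(ℚ, (O/𝔮^n)(-2s))` is at
least the length `n` of the congruence module; the second group is zero if `q ∤ B_{2s+1}`. So the inequality `≤` between the
two sides of Q1 (the denominators are trivial if `T_𝔮` is residually irreducible) follows from the
corresponding statement for automorphic forms: the length of the congruence module is at least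
`ord_𝔮(L(M, t)/Ω(t))`. Known before: one form, `n = 1` (a nonzero class).

Idea of the proof. The `T`-span of the `r(g)` in `M_N(O^K)` is a generalised matrix algebra with entries `a_ij ⊂ O^K`,
`a_ii = T`, with diagonal blocks lifting the `ρ_i` (matrix units lift since the trace forces the kernel of
the reduction to be nilpotent modulo `𝔪`, in any characteristic). The `O`-linear forms on `a_ij` with values in `O/𝔪^n` which
vanish on the `a_il a_lj` and on `ker(T → O/𝔪^n) a_ij` give extensions in `P`. The generators of the `a_ij`, `i ∈ A`, `j ∈ A'`,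
satisfy linear relations whose matrix has its entries in the algebra of the `a_ii' a_j'j`; its determinant is zero as the
`r_κ` are irreducible, and modulo `𝔪^n` it is the product of the elementary divisors of the `a_ij` modulo these submodules.
-/

set_option autoImplicit false

namespace Pool.Agent.Results.MP_78858f_nt.CongruenceDepth

open Matrix Module NumberField IsDedekindDomain IsLocalRing Filter
open Pool.Agent.W401.Cheb (GK IsFrob)
open Pool.Agent.H499.CD (modRep extRep Cob Coc Cls Closed)

/-- representations of the absolute Galois group of `F` on `O ^ n` -/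
abbrev Rep (F O : Type) [Field F] [NumberField F] [CommRing O] (n : ℕ) : Type := GK F →* GL (Fin n) O

section

variable {F O : Type} [Field F] [NumberField F] [CommRing O] [IsDomain O] [IsDiscreteValuationRing O]

/-- the matrix of `σ` -/
noncomputable def mat {n : ℕ} (ρ : Rep F O n) (σ : GK F) : Matrix (Fin n) (Fin n) O := ρ σ

/-- `ρ` as a homomorphism to the monoid of matrices -/
noncomputable def hom {n : ℕ} (ρ : Rep F O n) : GK F →* Matrix (Fin n) (Fin n) O := (Units.coeHom _).comp ρ

/-- the matrix of `σ` modulo `𝔪 ^ m` -/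
noncomputable def matMod {n : ℕ} (m : ℕ) (ρ : Rep F O n) (σ : GK F) : Matrix (Fin n) (Fin n) (O ⧸ maximalIdeal O ^ m) :=
  (mat ρ σ).map (Ideal.Quotient.mk (maximalIdeal O ^ m))

/-- the trace -/
noncomputable def tr {n : ℕ} (ρ : Rep F O n) (σ : GK F) : O := (mat ρ σ).trace

/-- `ρ` is continuous for the `𝔪`-adic topology: the kernels of the reductions modulo `𝔪 ^ m` are open -/
def ContinuousRep {n : ℕ} (ρ : Rep F O n) : Prop := ∀ m : ℕ, IsOpen {σ | matMod m ρ σ = 1}

/-- the reduction of `ρ` modulo `𝔪` is absolutely irreducible: its matrices span the matrix algebra over the residue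
field (Burnside's theorem) -/
def ResiduallyAbsolutelyIrreducible {n : ℕ} (ρ : Rep F O n) : Prop :=
  0 < n ∧ Submodule.span (ResidueField O) (Set.range fun σ => (mat ρ σ).map (residue O)) = ⊤

/-- the reductions of `ρ` and `τ` modulo `𝔪` have different traces, so they are not isomorphic (for absolutely
irreducible reductions this is the same) -/
def ResiduallyDifferent {a b : ℕ} (ρ : Rep F O a) (τ : Rep F O b) : Prop := ∃ σ, residue O (tr ρ σ) ≠ residue O (tr τ σ)

/-- `ρ` is irreducible over the field of fractions of `O` -/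
def Irreducible {n : ℕ} (ρ : Rep F O n) : Prop :=
  ∀ W : Submodule (FractionRing O) (Fin n → FractionRing O),
    (∀ σ, ∀ w ∈ W, (mat ρ σ).map (algebraMap O (FractionRing O)) *ᵥ w ∈ W) → W = ⊥ ∨ W = ⊤

/-- the number of the places in `S` of norm at most `N` is `o(π(N))` -/
def DensityZero (S : Set (HeightOneSpectrum (𝓞 F))) : Prop :=
  ∀ ε : ℝ, 0 < ε → ∀ᶠ N : ℕ in atTop,
    ({v : HeightOneSpectrum (𝓞 F) | Ideal.absNorm v.asIdeal ≤ N ∧ v ∈ S}.ncard : ℝ) ≤ ε * (Nat.primeCounting N : ℝ)

/-! ### The Hecke algebra and the Eisenstein ideal -/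

variable {K : Type} {N s : ℕ} {d : Fin s → ℕ}

/-- the Hecke algebra: the `O`-subalgebra of `O ^ K` generated by the traces of the geometric Frobenius elements of
the places outside `S` -/
def Hecke (S : Set (HeightOneSpectrum (𝓞 F))) (r : K → Rep F O N) : Subalgebra O (K → O) :=
  Algebra.adjoin O {x | ∃ v ∉ S, ∃ σ, IsFrob v σ ∧ x = fun κ => tr (r κ) σ⁻¹}

/-- the Eisenstein ideal: the ideal of the Hecke algebra generated by the elements `tr r(Frob_v) - ∑ tr ρ_i(Frob_v)`,
`v ∉ S` -/
def Eis (S : Set (HeightOneSpectrum (𝓞 F))) (r : K → Rep F O N) (ρ : ∀ i, Rep F O (d i)) : Ideal (Hecke S r) :=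
  Ideal.span {x | ∃ v ∉ S, ∃ σ, IsFrob v σ ∧ ∀ κ, (x : K → O) κ = tr (r κ) σ⁻¹ - ∑ i, tr (ρ i) σ⁻¹}

/-- the length of the congruence module `T/I` -/
noncomputable def congruenceLength (S : Set (HeightOneSpectrum (𝓞 F))) (r : K → Rep F O N)
    (ρ : ∀ i, Rep F O (d i)) : ℕ∞ := Module.length O (Hecke S r ⧸ Eis S r ρ)

/-- the traces of `τ` and `∑ ρ_i` are congruent modulo `𝔪` -/
def Congruent (ρ : ∀ i, Rep F O (d i)) (τ : Rep F O N) : Prop :=
  ∀ σ, tr τ σ - ∑ i, tr (ρ i) σ ∈ maximalIdeal O

/-! ### Classes of representations, and extensions -/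

/-- the action of `G_F` on the module `(O/𝔪^m)^n` -/
noncomputable def reduction {n : ℕ} (m : ℕ) (ρ : Rep F O n) (σ : GK F) (v : Fin n → O ⧸ maximalIdeal O ^ m) :
    Fin n → O ⧸ maximalIdeal O ^ m := matMod m ρ σ *ᵥ v

/-- a class of `O`-modules `V` with an action `π : G_F → V → V`, closed under submodules, quotients and finite
direct sums -/
structure Class (F O : Type) [Field F] [CommRing O] where
  mem : ∀ (V : Type) [AddCommGroup V] [Module O V], (GK F → V → V) → Prop
  sub : ∀ (V W : Type) [AddCommGroup V] [Module O V] [AddCommGroup W] [Module O W] (π : GK F → V → V)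
    (π' : GK F → W → W) (f : V →ₗ[O] W), (∀ σ v, f (π σ v) = π' σ (f v)) → Function.Injective f →
    mem W π' → mem V π
  quot : ∀ (V W : Type) [AddCommGroup V] [Module O V] [AddCommGroup W] [Module O W] (π : GK F → V → V)
    (π' : GK F → W → W) (f : V →ₗ[O] W), (∀ σ v, f (π σ v) = π' σ (f v)) → Function.Surjective f →
    mem V π → mem W π'
  sum : ∀ (ι : Type) [Fintype ι] (V : ι → Type) [∀ i, AddCommGroup (V i)] [∀ i, Module O (V i)]
    (π : ∀ i, GK F → V i → V i), (∀ i, mem (V i) (π i)) → mem (∀ i, V i) fun σ v i => π i σ (v i)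

/-- the functions `G_F → Hom((O/𝔪^n)^b, (O/𝔪^n)^a)` -/
def Cochain (F O : Type) [Field F] [CommRing O] [IsLocalRing O] (n b a : ℕ) : Type :=
  GK F → Matrix (Fin a) (Fin b) (O ⧸ maximalIdeal O ^ n)

noncomputable instance (F O : Type) [Field F] [CommRing O] [IsLocalRing O] (n b a : ℕ) :
    AddCommGroup (Cochain F O n b a) :=
  inferInstanceAs (AddCommGroup (GK F → Matrix (Fin a) (Fin b) (O ⧸ maximalIdeal O ^ n)))

noncomputable instance (F O : Type) [Field F] [CommRing O] [IsLocalRing O] (n b a : ℕ) :
    Module O (Cochain F O n b a) :=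
  inferInstanceAs (Module O (GK F → Matrix (Fin a) (Fin b) (O ⧸ maximalIdeal O ^ n)))

section extensions

variable {a b : ℕ} (n : ℕ) (τ : Rep F O b) (ρ : Rep F O a)

/-- `c` is a cocycle with values in `Hom(τ, ρ) ⊗ O/𝔪^n`, written such that the matrices `(ρ c; 0 τ)` are a
representation -/
def IsCocycle (c : Cochain F O n b a) : Prop :=
  ∀ σ σ', c (σ * σ') = matMod n ρ σ * c σ' + c σ * matMod n τ σ'

/-- `c` is a coboundary -/
def IsCoboundary (c : Cochain F O n b a) : Prop :=
  ∃ x : Matrix (Fin a) (Fin b) (O ⧸ maximalIdeal O ^ n), ∀ σ, c σ = matMod n ρ σ * x - x * matMod n τ σ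

/-- the extension `0 → ρ → U → τ → 0` over `O/𝔪^n` given by the cocycle `c`: `G_F` acts by the matrices
`(ρ c; 0 τ)` -/
noncomputable def extension (c : Cochain F O n b a) (σ : GK F)
    (v : (Fin a → O ⧸ maximalIdeal O ^ n) × (Fin b → O ⧸ maximalIdeal O ^ n)) :
    (Fin a → O ⧸ maximalIdeal O ^ n) × (Fin b → O ⧸ maximalIdeal O ^ n) :=
  (matMod n ρ σ *ᵥ v.1 + c σ *ᵥ v.2, matMod n τ σ *ᵥ v.2)

/-- the extension given by the cocycle `c` is in the class `P`, or split -/
def Allowed (P : Class F O) (c : Cochain F O n b a) : Prop :=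
  IsCocycle n τ ρ c ∧ (IsCoboundary n τ ρ c ∨ P.mem _ (extension n τ ρ c))

theorem cob_add {c c' : Cochain F O n b a} (h : IsCoboundary n τ ρ c) (h' : IsCoboundary n τ ρ c') :
    IsCoboundary n τ ρ (c + c') := (Cob n (hom τ) (hom ρ)).add_mem' h h'

theorem cob_zero : IsCoboundary n τ ρ 0 := (Cob n (hom τ) (hom ρ)).zero_mem'

theorem cob_smul (t : O) {c : Cochain F O n b a} (h : IsCoboundary n τ ρ c) : IsCoboundary n τ ρ (t • c) :=
  (Cob n (hom τ) (hom ρ)).smul_mem' t h

/-- the coboundaries -/
def Coboundaries : Submodule O (Cochain F O n b a) where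
  carrier := {c | IsCoboundary n τ ρ c}
  add_mem' := cob_add n τ ρ
  zero_mem' := cob_zero n τ ρ
  smul_mem' := fun t _ => cob_smul n τ ρ t

theorem closed (P : Class F O) : Closed (fun V _ _ π => P.mem V (fun σ v => π σ v) : Cls O (GK F)) where
  sub V W _ _ _ _ ρ τ f h1 h2 h3 := P.sub V W _ _ f h1 h2 h3
  quot V W _ _ _ _ ρ τ f h1 h2 h3 := P.quot V W _ _ f h1 h2 h3
  sum ι _ V _ _ ρ τ h1 h2 := by
    have h3 := P.sum ι V (fun i σ v => ρ i σ v) h2
    have h4 : (fun σ v => τ σ v) = fun (σ : GK F) (v : ∀ i, V i) i => ρ i σ (v i) := by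
      funext σ v i
      exact h1 σ v i
    rw [h4]
    exact h3

theorem add_mem_aux (P : Class F O) {c c' : Cochain F O n b a} (hc : Allowed n τ ρ P c) (hc' : Allowed n τ ρ P c') :
    Allowed n τ ρ P (c + c') := by
  obtain ⟨s1, s2, s3⟩ := Pool.Agent.H603.CD.main O (GK F) (Fin a) (Fin b) n (hom τ) (hom ρ) _ (closed P)
  obtain ⟨hc, h⟩ := hc
  obtain ⟨hc', h'⟩ := hc'
  refine ⟨(Coc n (hom τ) (hom ρ)).add_mem hc hc', ?_⟩
  rcases h with h | h
  · rcases h' with h' | h'
    · exact Or.inl ((Coboundaries n τ ρ).add_mem h h')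
    · have h3 := s3 ⟨c', hc'⟩ ⟨c, hc⟩ h' h
      have h4 : (⟨c', hc'⟩ + ⟨c, hc⟩ : Coc n (hom τ) (hom ρ)) = ⟨c + c', (Coc n (hom τ) (hom ρ)).add_mem hc hc'⟩ :=
        Subtype.ext (add_comm c' c)
      rw [h4] at h3
      exact Or.inr h3
  · rcases h' with h' | h'
    · exact Or.inr (s3 ⟨c, hc⟩ ⟨c', hc'⟩ h h')
    · exact Or.inr (s1 ⟨c, hc⟩ ⟨c', hc'⟩ h h')

theorem smul_mem_aux (P : Class F O) (t : O) {c : Cochain F O n b a} (hc : Allowed n τ ρ P c) :
    Allowed n τ ρ P (t • c) := by
  obtain ⟨s1, s2, s3⟩ := Pool.Agent.H603.CD.main O (GK F) (Fin a) (Fin b) n (hom τ) (hom ρ) _ (closed P)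
  obtain ⟨hc, h⟩ := hc
  refine ⟨(Coc n (hom τ) (hom ρ)).smul_mem t hc, ?_⟩
  rcases h with h | h
  · exact Or.inl ((Coboundaries n τ ρ).smul_mem t h)
  · exact Or.inr (s2 t ⟨c, hc⟩ h)

theorem zero_mem_aux (P : Class F O) : Allowed n τ ρ P 0 :=
  ⟨(Coc n (hom τ) (hom ρ)).zero_mem, Or.inl (Coboundaries n τ ρ).zero_mem⟩

/-- the cocycles `c` whose extension is in the class `P`, or split -/
def Cocycles (P : Class F O) : Submodule O (Cochain F O n b a) where
  carrier := {c | Allowed n τ ρ P c}
  add_mem' := add_mem_aux n τ ρ P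
  zero_mem' := zero_mem_aux n τ ρ P
  smul_mem' := fun t _ => smul_mem_aux n τ ρ P t

/-- `H¹_P(F, Hom(τ, ρ) ⊗ O/𝔪^n)`: the group of the classes of the extensions of `τ` by `ρ` over `O/𝔪^n` which are in the
class `P`, or split -/
abbrev Selmer (P : Class F O) : Type := Cocycles n τ ρ P ⧸ (Coboundaries n τ ρ).submoduleOf (Cocycles n τ ρ P)

/-- its length -/
noncomputable def selmerLength (P : Class F O) : ℕ∞ := Module.length O (Selmer n τ ρ P)

end extensions

end

/-- Let `O` be a complete discrete valuation ring, `F` a number field, `S` a set of places of density zero,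
`ρ_1, …, ρ_s` continuous representations over `O` whose reductions are absolutely irreducible and pairwise not
isomorphic, `r_κ` (`κ ∈ K`) continuous representations of dimension `∑ d_i` such that those `r_κ` with traces
congruent modulo `𝔪` to those of `⊕ ρ_i` are irreducible and their reductions modulo the powers of `𝔪` are in the class
`P`. If the congruence module `T/I` has length at least `n`, then for all decompositions `A ∪ A'` of `{1, …, s}` in
nonempty subsets the sum of the lengths of the `H¹_P(F, Hom(ρ_j, ρ_i) ⊗ O/𝔪^n)`, `i ∈ A`, `j ∈ A'`, is at least `n`. -/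
theorem result {F O : Type} [Field F] [NumberField F] [CommRing O] [IsDomain O] [IsDiscreteValuationRing O]
    [IsAdicComplete (maximalIdeal O) O] (S : Set (HeightOneSpectrum (𝓞 F))) (hS : DensityZero S) {s : ℕ}
    {d : Fin s → ℕ} (ρ : ∀ i, Rep F O (d i)) (hρ : ∀ i, ContinuousRep (ρ i))
    (hirr : ∀ i, ResiduallyAbsolutelyIrreducible (ρ i)) (hne : ∀ i j, i ≠ j → ResiduallyDifferent (ρ i) (ρ j))
    {K : Type} [Fintype K] (r : K → Rep F O (∑ i, d i)) (hr : ∀ κ, ContinuousRep (r κ))
    (hr' : ∀ κ, Congruent ρ (r κ) → Irreducible (r κ)) (P : Class F O)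
    (hP : ∀ κ, Congruent ρ (r κ) → ∀ m, P.mem _ (reduction m (r κ))) (n : ℕ)
    (hn : (n : ℕ∞) ≤ congruenceLength S r ρ) (A : Finset (Fin s)) (hA : A.Nonempty)
    (hA' : Aᶜ.Nonempty) : (n : ℕ∞) ≤ ∑ i ∈ A, ∑ j ∈ Aᶜ, selmerLength n (ρ j) (ρ i) P := by
  rcases eq_or_ne n 0 with rfl | hn0
  · exact zero_le
  have hopen : ∀ {m : ℕ} (τ : Rep F O m), ContinuousRep τ → ∀ k,
      IsOpen {g | ∀ x y, (hom τ g - 1) x y ∈ maximalIdeal O ^ k} := by
    intro m τ h k
    have h1 : {g | ∀ x y, (hom τ g - 1) x y ∈ maximalIdeal O ^ k} = {σ | matMod k τ σ = 1} := by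
      ext g
      constructor
      · intro h2
        ext x y
        have h3 := h2 x y
        rw [← Ideal.Quotient.eq_zero_iff_mem, Matrix.sub_apply, map_sub, sub_eq_zero] at h3
        refine h3.trans ?_
        rw [Matrix.one_apply, Matrix.one_apply]
        split_ifs
        · exact map_one _
        · exact map_zero _
      · intro h2 x y
        rw [← Ideal.Quotient.eq_zero_iff_mem, Matrix.sub_apply, map_sub, sub_eq_zero]
        have h3 := congrFun (congrFun (show matMod k τ g = 1 from h2) x) y
        refine Eq.trans h3 ?_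
        rw [Matrix.one_apply, Matrix.one_apply]
        split_ifs
        · exact (map_one _).symm
        · exact (map_zero _).symm
    rw [h1]
    exact h k
  have hS' : Pool.Agent.H499.CM.UpperDensityLE (fun v => v ∈ S) 0 := by
    intro ε hε
    have := hS ε hε
    filter_upwards [this] with N hN
    rw [zero_add]
    exact hN
  obtain ⟨W, h1, h2, h3⟩ := Pool.Agent.H499.CD.main_gal hS' (fun i => hom (ρ i)) (fun i m => hopen (ρ i) (hρ i) m)
    (fun i => (hirr i).1) (fun i => (hirr i).2) hne (fun κ => hom (r κ)) (fun κ m => hopen (r κ) (hr κ) m)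
    hr' _ (closed P) hP n hn0 (Hecke S r) rfl hn
  refine (h3 A hA hA').trans ?_
  refine Finset.sum_le_sum fun i hi => Finset.sum_le_sum fun j hj => ?_
  have hij : i ≠ j := by
    rintro rfl
    exact (Finset.mem_compl.1 hj) hi
  have hle : W i j ≤ Cocycles n (ρ j) (ρ i) P := fun c hc => by
    obtain ⟨h4, h5⟩ := h1 i j hij c hc
    exact ⟨h4, Or.inr h5⟩
  refine Module.length_le_of_injective
    (((Coboundaries n (ρ j) (ρ i)).submoduleOf (Cocycles n (ρ j) (ρ i) P)).mkQ ∘ₗ Submodule.inclusion hle) ?_
  rw [injective_iff_map_eq_zero]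
  rintro ⟨c, hc⟩ h4
  have h5 : Submodule.inclusion hle ⟨c, hc⟩ ∈ (Coboundaries n (ρ j) (ρ i)).submoduleOf (Cocycles n (ρ j) (ρ i) P) :=
    (Submodule.Quotient.mk_eq_zero _).1 h4
  exact Subtype.ext (h2 i j hij c hc h5)

end Pool.Agent.Results.MP_78858f_nt.CongruenceDepth
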